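import Pool.Agent.Helper55.RL.Spec
import Pool.Agent.Helper46.RG.DSC

/-!
# RL swarm, part DNP: descent of elements which are equal up to `p`-th powers of `F L`
-/

set_option autoImplicit false
set_option linter.all false

open Polynomial

namespace Pool.Agent.Helper51.RL.DNP

open Pool.Agent.Helper55.RG Pool.Agent.TH115.GD Pool.Agent.Helper46.RG.DSC

theorem root_one {k' Ω : Type} [Field k'] [IsAlgClosed k'] [Field Ω] [Algebra k' Ω] (p : ℕ)
    (hp : p ≠ 0) (ζ : Ω) (hζ : ζ ^ p = 1) : ∃ e : k', algebraMap k' Ω e = ζ := by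
  have hint : IsIntegral k' ζ := by
    refine ⟨X ^ p - 1, monic_X_pow_sub_C 1 hp, ?_⟩
    rw [eval₂_sub, eval₂_one, eval₂_pow, eval₂_X, hζ, sub_self]
  have h := hint.mem_range_algebraMap_of_minpoly_splits (K := k') (L := Ω)
    (IsAlgClosed.splits _)
  exact h

/-- The main argument: `v` with `v ^ p ∈ L` in the span of `L` over `k'`. -/
theorem desc' (p : ℕ) (hp : p ≠ 0) {k k' K Ω : Type} [Field k] [Field k'] [IsAlgClosed k']
    [Field K] [Field Ω] [Algebra k k']
    [Algebra K Ω] [IsGalois K Ω] [Algebra k' Ω] (L : IntermediateField K Ω)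
    (hs : ∀ τ : Ω ≃ₐ[K] Ω, ∃ s : k' ≃ₐ[k] k', ∀ c : k', τ (algebraMap k' Ω c) =
      algebraMap k' Ω (s c))
    (v : Ω) (hv0 : v ≠ 0) (hv2 : v ^ p ∈ L) (hv : v ∈ Submodule.span k' (L : Set Ω)) :
    ∃ (c : k') (w : Ω), c ≠ 0 ∧ algebraMap k' Ω c ∈ L ∧ w ∈ L ∧
      v ^ p = algebraMap k' Ω c * w ^ p := by
  classical
  have hfix : ∀ x : Ω, (∀ τ : Ω ≃ₐ[K] Ω, τ ∈ L.fixingSubgroup → τ x = x) → x ∈ L := by
    intro x hx
    have h1 := InfiniteGalois.fixedField_fixingSubgroup L
    rw [← h1, IntermediateField.mem_fixedField_iff]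
    exact hx
  obtain ⟨b, hbL, hbs, hbi⟩ := exists_linearIndependent k' (L : Set Ω)
  rw [← hbs, Finsupp.mem_span_iff_linearCombination] at hv
  obtain ⟨l, hl⟩ := hv
  have hl0 : l ≠ 0 := by
    rintro rfl
    rw [map_zero] at hl
    exact hv0 hl.symm
  obtain ⟨b0, hb0⟩ := Finsupp.ne_iff.1 hl0
  rw [Finsupp.zero_apply] at hb0
  have key : ∀ τ : Ω ≃ₐ[K] Ω, τ ∈ L.fixingSubgroup →
      ∃ e : k', e ^ p = 1 ∧ τ v = algebraMap k' Ω e * v ∧
        τ (algebraMap k' Ω (l b0)) = algebraMap k' Ω e * algebraMap k' Ω (l b0) := by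
    intro τ hτ
    have hτL : ∀ x : Ω, x ∈ L → τ x = x := fun x hx => hτ ⟨x, hx⟩
    obtain ⟨s, hs⟩ := hs τ
    have h1 : τ v = Finsupp.linearCombination k' (Subtype.val : b → Ω)
        (l.mapRange s (map_zero s)) := by
      rw [← hl, Finsupp.linearCombination_apply, Finsupp.linearCombination_apply, map_finsuppSum,
        Finsupp.sum_mapRange_index (h := fun (a : b) (r : k') => r • (a : Ω))
          (fun a => zero_smul _ _)]
      refine Finsupp.sum_congr fun x hx => ?_
      rw [Algebra.smul_def, Algebra.smul_def, map_mul, hs, hτL _ (hbL x.2)]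
    have h2 : (τ v) ^ p = v ^ p := by rw [← map_pow, hτL _ hv2]
    have h5 : (τ v / v) ^ p = 1 := by
      rw [div_pow, h2, div_self (pow_ne_zero p hv0)]
    obtain ⟨e, he⟩ := root_one (k' := k') p hp _ h5
    have h6 : e ^ p = 1 := by
      apply (algebraMap k' Ω).injective
      rw [map_pow, he, h5, map_one]
    have h7 : τ v = algebraMap k' Ω e * v := by
      rw [he, div_mul_cancel₀ _ hv0]
    refine ⟨e, h6, h7, ?_⟩
    rw [hs]
    have h3 : l.mapRange s (map_zero s) = e • l := by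
      apply hbi
      rw [← h1, h7, map_smul, hl, Algebra.smul_def]
    have h4 := DFunLike.congr_fun h3 b0
    rw [Finsupp.mapRange_apply, Finsupp.smul_apply, smul_eq_mul] at h4
    rw [h4, map_mul]
  set u : Ω := algebraMap k' Ω (l b0) with hu
  have hu0 : u ≠ 0 := (_root_.map_ne_zero _).2 hb0
  have hu2 : algebraMap k' Ω ((l b0) ^ p) ∈ L := by
    apply hfix
    intro τ hτ
    rw [map_pow, map_pow, ← hu]
    obtain ⟨e, h6, -, h⟩ := key τ hτ
    rw [h, mul_pow, ← map_pow, h6, map_one, one_mul]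
  refine ⟨(l b0) ^ p, v / u, pow_ne_zero p hb0, hu2, ?_, ?_⟩
  · apply hfix
    intro τ hτ
    obtain ⟨e, h6, h, h'⟩ := key τ hτ
    have he0 : algebraMap k' Ω e ≠ 0 := by
      rw [_root_.map_ne_zero]
      rintro rfl
      rw [zero_pow hp] at h6
      exact zero_ne_one h6
    rw [map_div₀, h, h', mul_div_mul_left _ _ he0]
  · rw [map_pow, ← hu, div_pow, mul_div_cancel₀ _ (pow_ne_zero p hu0)]

theorem main : Pool.Agent.Helper55.RL.P_DNP := by
  intro p hp k k' K F _ _ _ _ _ _ _ _ _ _ hT L _ z z' hz hz' hz0 hz'0 v hv hzv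
  have hp0 : p ≠ 0 := hp.out.ne_zero
  haveI := hT.sep
  haveI := hT.fracK
  haveI : IsSepClosed k' := IsSepClosure.sep_closed k
  haveI : CharZero k' := charZero_of_injective_algebraMap (algebraMap k k').injective
  haveI : IsAlgClosed k' := inferInstance
  haveI : IsSepClosure K (Sep F) := sepKΩ hT.map
  haveI : Algebra.IsSeparable K (Sep F) := IsSepClosure.separable
  haveI : IsGalois K (Sep F) := inferInstance
  letI aΩ : Algebra k' (Sep F) := ((em k' F (Sep F)).comp C).toAlgebra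
  have ht : algebraMap K F (algebraMap k[X] K X) = algebraMap k'[X] F X := by
    rw [hT.map, map_X]
  have h1 : v ∈ Submodule.span k' (L : Set (Sep F)) :=
    mem_span L _ ht (fun c => rfl) v hv
  have hv0 : v ≠ 0 := by
    rintro rfl
    rw [zero_pow hp0, mul_zero] at hzv
    exact hz0 hzv
  have hv2 : v ^ p ∈ L := by
    have : v ^ p = z / z' := by
      rw [hzv, mul_div_cancel_left₀ _ hz'0]
    rw [this]
    exact L.div_mem hz hz'
  obtain ⟨c, w, hc, hcL, hw, h⟩ := desc' p hp0 (k := k) (k' := k') L (fun τ => by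
    obtain ⟨s, hs⟩ := restr hT.map τ
    refine ⟨s, fun c => ?_⟩
    have := hs (C c)
    rw [map_C] at this
    exact this) v hv0 hv2 h1
  refine ⟨c, w, hc, hcL, hw, ?_⟩
  rw [hzv, h, mul_assoc]
  rfl

end Pool.Agent.Helper51.RL.DNP
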