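import Pool.Agent.Helper55.RL.Spec

/-! Part KMP of the RL project: characters of order `p` are given by roots of order `p`. -/

set_option autoImplicit false

namespace Pool.Agent.Helper51.RL.KMP

theorem h90 (F E : Type) [Field F] [Field E] [Algebra F E] [FiniteDimensional F E]
    (c : (E ≃ₐ[F] E) → F) (hc0 : ∀ g, c g ≠ 0) (hc : ∀ g h, c (g * h) = c g * c h) :
    ∃ β : E, β ≠ 0 ∧ ∀ g : E ≃ₐ[F] E, g β = algebraMap F E (c g) * β := by
  have hc1 : ∀ g, algebraMap F E (c g) ≠ 0 := fun g => by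
    rw [Ne, map_eq_zero]
    exact hc0 g
  let f : (E ≃ₐ[F] E) → Eˣ := fun g => Units.mk0 (algebraMap F E (c g)) (hc1 g)
  have hf : groupCohomology.IsMulCocycle₁ f := by
    intro g h
    apply Units.ext
    show algebraMap F E (c (g * h)) = g (algebraMap F E (c h)) * algebraMap F E (c g)
    rw [AlgEquiv.commutes, ← map_mul, hc, mul_comm]
  obtain ⟨β, hβ⟩ := groupCohomology.isMulCoboundary₁_of_isMulCocycle₁_of_aut_to_units f hf
  refine ⟨(β : E), β.ne_zero, ?_⟩
  intro g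
  have h1 : g • β = f g * β := by
    rw [← hβ g, div_mul_cancel]
  exact congrArg (fun x : Eˣ => (x : E)) h1

theorem kmp : ∀ (p : ℕ) [Fact p.Prime] (K Ω : Type) [Field K] [CharZero K] [Field Ω]
    [Algebra K Ω] [IsGalois K Ω] (L : IntermediateField K Ω) (χ : (Ω ≃ₐ[K] Ω) → Ω),
    (∀ ζ : Ω, ζ ^ p = 1 → ζ ∈ L) → (∀ σ, χ σ ^ p = 1) →
    (∀ σ ∈ L.fixingSubgroup, ∀ τ ∈ L.fixingSubgroup, χ (σ * τ) = χ σ * χ τ) →
    ∀ S : Set Ω, S.Finite → (∀ u ∈ L.fixingSubgroup, (∀ x ∈ S, u x = x) → χ u = 1) →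
    ∃ y : Ω, y ≠ 0 ∧ y ^ p ∈ L ∧ ∀ σ ∈ L.fixingSubgroup, σ y = χ σ * y := by
  intro p hp K Ω _ _ _ _ _ L χ hμ hχ hmul S hS hSχ
  have hp0 : p ≠ 0 := hp.out.ne_zero
  have hne : ∀ σ, χ σ ≠ 0 := by
    intro σ h
    have := hχ σ
    rw [h, zero_pow hp0] at this
    exact zero_ne_one this
  have hr : ∀ σ : Ω ≃ₐ[L] Ω, σ.restrictScalars K ∈ L.fixingSubgroup := by
    intro σ
    rw [IntermediateField.mem_fixingSubgroup_iff]
    intro x hx
    exact σ.commutes ⟨x, hx⟩
  have hrm : ∀ σ τ : Ω ≃ₐ[L] Ω, (σ * τ).restrictScalars K =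
      σ.restrictScalars K * τ.restrictScalars K := fun σ τ => rfl
  have hm : ∀ σ τ : Ω ≃ₐ[L] Ω, χ ((σ * τ).restrictScalars K) =
      χ (σ.restrictScalars K) * χ (τ.restrictScalars K) := by
    intro σ τ
    rw [hrm]
    exact hmul _ (hr σ) _ (hr τ)
  -- elements of the fixing subgroup come from `L`-automorphisms
  have hlift : ∀ σ ∈ L.fixingSubgroup, ∃ τ : Ω ≃ₐ[L] Ω, τ.restrictScalars K = σ := by
    intro σ hσ
    refine ⟨IntermediateField.fixingSubgroupEquiv L ⟨σ, hσ⟩, ?_⟩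
    ext x
    rfl
  have : FiniteDimensional L (IntermediateField.adjoin L S) := by
    have : Algebra.IsAlgebraic L Ω := inferInstance
    have hSf : Finite S := hS.to_subtype
    refine IntermediateField.finiteDimensional_adjoin (S := S) fun x _ => ?_
    exact Algebra.IsIntegral.isIntegral x
  obtain ⟨E, hE1, hE2, hE3⟩ : ∃ E : IntermediateField L Ω, FiniteDimensional L E ∧ Normal L E ∧
      ∀ x ∈ S, x ∈ E := by
    refine ⟨IntermediateField.normalClosure L (IntermediateField.adjoin L S) Ω,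
      inferInstance, inferInstance, ?_⟩
    intro x hx
    exact IntermediateField.le_normalClosure _ (IntermediateField.subset_adjoin L S hx)
  have key : ∀ σ τ : Ω ≃ₐ[L] Ω, (∀ x ∈ E, σ x = τ x) →
      χ (σ.restrictScalars K) = χ (τ.restrictScalars K) := by
    intro σ τ h
    have h1 : σ = τ * (τ⁻¹ * σ) := by rw [mul_inv_cancel_left]
    have h2 : χ ((τ⁻¹ * σ).restrictScalars K) = 1 := by
      refine hSχ _ (hr _) ?_
      intro x hx
      show (τ⁻¹ * σ) x = x
      rw [AlgEquiv.mul_apply, h x (hE3 x hx), ← AlgEquiv.mul_apply, inv_mul_cancel,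
        AlgEquiv.one_apply]
    rw [h1, hm, h2, mul_one]
  have hsurj : Function.Surjective (AlgEquiv.restrictNormalHom (F := L) (K₁ := Ω) E) :=
    AlgEquiv.restrictNormalHom_surjective Ω
  choose l hl using hsurj
  have hlx : ∀ (g : E ≃ₐ[L] E) (x : E), l g (x : Ω) = ((g x : E) : Ω) := by
    intro g x
    have h1 := AlgEquiv.restrictNormal_commutes (l g) E x
    have h2 : (l g).restrictNormal E = g := hl g
    rw [h2] at h1
    exact h1.symm
  let c : (E ≃ₐ[L] E) → L := fun g => ⟨χ ((l g).restrictScalars K), hμ _ (hχ _)⟩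
  have hc : ∀ g, ((c g : L) : Ω) = χ ((l g).restrictScalars K) := fun g => rfl
  have hc0 : ∀ g, c g ≠ 0 := by
    intro g h
    have h2 := congrArg (fun x : L => (x : Ω)) h
    exact hne _ h2
  have hcm : ∀ g h, c (g * h) = c g * c h := by
    intro g h
    apply Subtype.ext
    show χ ((l (g * h)).restrictScalars K) = χ ((l g).restrictScalars K) * χ ((l h).restrictScalars K)
    rw [← hm]
    apply key
    intro x hx
    have e1 := hlx (g * h) ⟨x, hx⟩
    have e2 := hlx h ⟨x, hx⟩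
    have e3 := hlx g (h ⟨x, hx⟩)
    rw [AlgEquiv.mul_apply] at e1 ⊢
    exact e1.trans (by rw [← e3, ← e2])
  obtain ⟨β, hβ0, hβ⟩ := h90 L E c hc0 hcm
  have hβ2 : ∀ σ : Ω ≃ₐ[L] Ω, σ (β : Ω) = χ (σ.restrictScalars K) * (β : Ω) := by
    intro σ
    have e2 : ∀ x : E, ((σ.restrictNormal E x : E) : Ω) = σ (x : Ω) :=
      AlgEquiv.restrictNormal_commutes σ E
    have h5 : χ ((l (σ.restrictNormal E)).restrictScalars K) = χ (σ.restrictScalars K) := by
      apply key
      intro x hx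
      have e1 := hlx (σ.restrictNormal E) ⟨x, hx⟩
      exact e1.trans (e2 ⟨x, hx⟩)
    rw [← e2, hβ, ← h5]
    rfl
  refine ⟨(β : Ω), ?_, ?_, ?_⟩
  · intro h
    exact hβ0 (Subtype.ext h)
  · have h9 := (InfiniteGalois.mem_range_algebraMap_iff_fixed (k := L) (K := Ω)
        ((β : Ω) ^ p)).2 (by
        intro σ
        rw [map_pow, hβ2, mul_pow, hχ, one_mul])
    obtain ⟨w, hw⟩ := h9
    rw [← hw]
    exact w.2
  · intro σ hσ
    obtain ⟨τ, rfl⟩ := hlift σ hσ
    exact hβ2 τ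

theorem main : Pool.Agent.Helper55.RL.P_KMP := @kmp

end Pool.Agent.Helper51.RL.KMP
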