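import Pool.Agent.Helper55.RL.Spec

/-! Part PWR of the RL project: roots of order `p` of Laurent series of order divisible by `p`. -/

set_option autoImplicit false

namespace Pool.Agent.Helper51.RL.PWR

open Polynomial

theorem pwr : ∀ (p : ℕ) [Fact p.Prime] (Ω : Type) [Field Ω] [IsAlgClosed Ω] [CharZero Ω]
    (f : LaurentSeries Ω), f ≠ 0 → (p : ℤ) ∣ f.order → ∃ y : LaurentSeries Ω, y ^ p = f := by
  intro p hp Ω _ _ _ f hf hev
  have hp0 : 0 < p := hp.out.pos
  obtain ⟨m, hm⟩ := hev
  set P := f.powerSeriesPart with hP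
  have hP0 : PowerSeries.coeff 0 P ≠ 0 := by
    rw [hP, LaurentSeries.powerSeriesPart_coeff]
    simpa using hf
  obtain ⟨c, hc⟩ := IsAlgClosed.exists_pow_nat_eq (PowerSeries.coeff 0 P) hp0
  have hc0 : c ≠ 0 := by
    rintro rfl
    exact hP0 (by rw [← hc, zero_pow hp0.ne'])
  have : HenselianRing (PowerSeries Ω) (Ideal.span {(PowerSeries.X : PowerSeries Ω)}) :=
    IsAdicComplete.henselianRing _ _
  obtain ⟨a, ha, -⟩ := HenselianRing.is_henselian
    (I := Ideal.span {(PowerSeries.X : PowerSeries Ω)})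
    (Polynomial.X ^ p - Polynomial.C P) (Polynomial.monic_X_pow_sub_C P hp0.ne')
    (PowerSeries.C c) (by
      rw [Ideal.mem_span_singleton, PowerSeries.X_dvd_iff]
      simp only [eval_sub, eval_pow, eval_X, eval_C, map_sub, map_pow,
        PowerSeries.constantCoeff_C]
      rw [hc, PowerSeries.coeff_zero_eq_constantCoeff_apply, sub_self]) (by
      refine IsUnit.map _ ?_
      rw [PowerSeries.isUnit_iff_constantCoeff]
      have h2 : (p : Ω) ≠ 0 := Nat.cast_ne_zero.2 hp0.ne'
      simp [derivative_X_pow, hc0, h2])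
  have ha2 : a ^ p = P := by
    have h := ha
    rw [Polynomial.IsRoot.def] at h
    simp only [eval_sub, eval_pow, eval_X, eval_C] at h
    exact sub_eq_zero.1 h
  refine ⟨HahnSeries.single m 1 * HahnSeries.ofPowerSeries ℤ Ω a, ?_⟩
  rw [mul_pow, ← map_pow (HahnSeries.ofPowerSeries ℤ Ω), ha2, HahnSeries.single_pow, one_pow,
    nsmul_eq_mul, ← hm, hP]
  exact LaurentSeries.single_order_mul_powerSeriesPart f

theorem main : Pool.Agent.Helper55.RL.P_PWR := @pwr

end Pool.Agent.Helper51.RL.PWR
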